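import Pool.Agent.helper48.AGR.Spec

/-!
# MP_def0df_al, row CUP
-/

set_option autoImplicit false

namespace Pool.Agent.AGR

theorem CUP (hBAL : BAL_stmt) : CUP_stmt := by
  intro G _ S n
  obtain ⟨hfin, hcard⟩ := (hBAL G S).2.2.2.2 n
  have h1 : {c : ConjClasses G | ∃ g ∈ Ball (S : Set G) n, ConjClasses.mk g = c} =
      ConjClasses.mk '' Ball (S : Set G) n := rfl
  unfold conjGrowth
  rw [h1]
  exact (Set.ncard_image_le hfin).trans hcard

end Pool.Agent.AGR
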